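import Pool.Agent.Lib.MP_426b05_co.H72.S6

/-!
# FAILS: what happens above the bound when `(V, E)` is not constructible
-/

set_option autoImplicit false

namespace Pool.Agent.Lib.MP_426b05_co.H72

open Finset Filter Pool.Agent.Lib.MP_426b05_co

lemma exists_gap (X : Finset ℝ) : ∃ δ : ℝ, 0 < δ ∧ ∀ x ∈ X, 0 < x → δ ≤ x := by
  classical
  induction X using Finset.induction_on with
  | empty => exact ⟨1, one_pos, fun x hx => absurd hx (Finset.notMem_empty x)⟩
  | insert a X _ ih =>
    obtain ⟨δ, hδ, h⟩ := ih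
    by_cases ha : 0 < a
    · refine ⟨min δ a, lt_min hδ ha, fun x hx hx0 => ?_⟩
      rw [Finset.mem_insert] at hx
      rcases hx with rfl | hx
      · exact min_le_right _ _
      · exact (min_le_left _ _).trans (h x hx hx0)
    · refine ⟨δ, hδ, fun x hx hx0 => ?_⟩
      rw [Finset.mem_insert] at hx
      rcases hx with rfl | hx
      · exact absurd hx0 ha
      · exact h x hx hx0

/-- gap between the values of the potentials -/
lemma exists_pot_gap (V : Type) [Fintype V] [DecidableEq V] (θ : ℝ) (m : ℕ) :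
    ∃ δ : ℝ, 0 < δ ∧ ∀ (e : ℕ → Finset V) (i : ℕ), i ≤ m → ∀ W W' : Finset V,
      (W'.card : ℝ) - θ * (idx e i W').card < (W.card : ℝ) - θ * (idx e i W).card →
      δ ≤ ((W.card : ℝ) - θ * (idx e i W).card) - ((W'.card : ℝ) - θ * (idx e i W').card) := by
  classical
  obtain ⟨δ, hδ, h⟩ := exists_gap
    ((((range (Fintype.card V + 1)) ×ˢ (range (m + 1))) ×ˢ
      ((range (Fintype.card V + 1)) ×ˢ (range (m + 1)))).image
      (fun x : (ℕ × ℕ) × (ℕ × ℕ) =>
        (((x.1.1 : ℕ) : ℝ) - θ * ((x.1.2 : ℕ) : ℝ)) - (((x.2.1 : ℕ) : ℝ) - θ * ((x.2.2 : ℕ) : ℝ))))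
  refine ⟨δ, hδ, fun e i hi W W' hlt => h _ ?_ (by linarith)⟩
  rw [Finset.mem_image]
  have hc : ∀ W : Finset V, W.card ∈ range (Fintype.card V + 1) := fun W => by
    rw [Finset.mem_range]; exact Nat.lt_succ_of_le (card_le_univ W)
  have hd : ∀ W : Finset V, (idx e i W).card ∈ range (m + 1) := fun W => by
    rw [Finset.mem_range]
    unfold idx
    have := card_filter_le (range i) (fun j => e j ⊆ W)
    rw [card_range] at this
    omega
  refine ⟨((W.card, (idx e i W).card), (W'.card, (idx e i W').card)), ?_, rfl⟩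
  rw [Finset.mem_product, Finset.mem_product, Finset.mem_product]
  exact ⟨⟨hc W, hd W⟩, ⟨hc W', hd W'⟩⟩

/-- the number of earlier edges inside `W` -/
lemma eIn_take {V : Type} [DecidableEq V] {r : ℕ} {E : Finset (Finset V)} {e R : ℕ → Finset V}
    (hpat : IsPattern r E e R) {i : ℕ} (hi : i ≤ E.card) (W : Finset V) :
    eIn ((((List.range E.card).map e).take i).toFinset) W = (idx e i W).card := by
  classical
  have h1 : ((((List.range E.card).map e).take i).toFinset) = (range i).image e := by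
    ext f
    rw [List.mem_toFinset, ← List.map_take, List.take_range, List.mem_map, Finset.mem_image]
    constructor
    · rintro ⟨j, hj, rfl⟩
      rw [List.mem_range] at hj
      exact ⟨j, Finset.mem_range.mpr (by omega), rfl⟩
    · rintro ⟨j, hj, rfl⟩
      rw [Finset.mem_range] at hj
      exact ⟨j, List.mem_range.mpr (by omega), rfl⟩
  rw [h1]
  unfold eIn idx
  rw [Finset.filter_image, Finset.card_image_of_injOn]
  intro j hj j' hj' hjj
  rw [Finset.mem_coe, Finset.mem_filter, Finset.mem_range] at hj hj'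
  exact hpat.inj j (by omega) j' (by omega) hjj

/-- the bad edge of a pattern -/
lemma bad_edge {V : Type} [Fintype V] [DecidableEq V] {r s : ℕ} (hrs : r < s)
    {E : Finset (Finset V)} (hE : ∀ f ∈ E, f.card = s) (hEne : E.Nonempty) {θ : ℝ}
    (hnot : ¬ Constructible r s θ E) {e R : ℕ → Finset V} (hpat : IsPattern r E e R) :
    ∃ i, 1 ≤ i ∧ i < E.card ∧ ∃ W' : Finset V, R i ∪ (e 0 \ R 0) ⊆ W' ∧ s ≤ W'.card ∧
      ∀ W : Finset V, e i ∪ (e 0 \ R 0) ⊆ W →
        (W'.card : ℝ) - θ * (idx e i W').card < (W.card : ℝ) - θ * (idx e i W).card := by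
  classical
  have hm : 0 < E.card := hEne.card_pos
  obtain ⟨C, hC⟩ : ∃ C, C = e 0 \ R 0 := ⟨_, rfl⟩
  have hCc : C.card = s - r := by
    rw [hC, Finset.card_sdiff_of_subset (hpat.sub 0 hm), hE _ (hpat.mem 0 hm), hpat.card 0 hm]
  have hsurj : ((List.range E.card).map e).toFinset = E := by
    apply Finset.eq_of_subset_of_card_le
    · intro f hf
      rw [List.mem_toFinset, List.mem_map] at hf
      obtain ⟨j, hj, rfl⟩ := hf
      exact hpat.mem j (List.mem_range.mp hj)
    · rw [List.toFinset_card_of_nodup]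
      · simp
      · refine List.Nodup.map_on ?_ List.nodup_range
        intro j hj j' hj' hjj
        exact hpat.inj j (List.mem_range.mp hj) j' (List.mem_range.mp hj') hjj
  have hnodup : ((List.range E.card).map e).Nodup := by
    refine List.Nodup.map_on ?_ List.nodup_range
    intro j hj j' hj' hjj
    exact hpat.inj j (List.mem_range.mp hj) j' (List.mem_range.mp hj') hjj
  have hex : ∃ (i : ℕ) (hi : i < ((List.range E.card).map e).length),
      ¬ Addable r θ C (((List.range E.card).map e).take i).toFinset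
        (((List.range E.card).map e)[i]) := by
    by_contra hcon
    push Not at hcon
    exact hnot ⟨C, (List.range E.card).map e, hCc, hnodup, hsurj, hcon⟩
  obtain ⟨i, hi, hbad⟩ := hex
  have him : i < E.card := by simpa using hi
  have hget : ((List.range E.card).map e)[i] = e i := by simp
  rw [hget] at hbad
  have hpot : ∀ W : Finset V, pot θ (((List.range E.card).map e).take i).toFinset W =
      (W.card : ℝ) - θ * (idx e i W).card := by
    intro W
    unfold pot
    rw [eIn_take hpat him.le]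
  have hi1 : 1 ≤ i := by
    by_contra hcon
    have hi0 : i = 0 := by omega
    subst hi0
    apply hbad
    refine ⟨R 0, ?_, hpat.card 0 hm, e 0, ?_, ?_⟩
    · intro x hx
      rw [hC, Finset.mem_sdiff, Finset.mem_sdiff]
      exact ⟨hpat.sub 0 hm hx, fun h => h.2 hx⟩
    · rw [hC]
      exact Finset.union_subset Finset.Subset.rfl Finset.sdiff_subset
    · intro W' hW'
      rw [hpot, hpot]
      have h1 : ∀ W : Finset V, (idx e 0 W).card = 0 := fun W => by unfold idx; simp
      rw [h1, h1]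
      have h2 : e 0 ⊆ W' := by
        intro x hx
        apply hW'
        rw [Finset.mem_union, hC, Finset.mem_sdiff]
        by_cases hxR : x ∈ R 0
        · exact Or.inl hxR
        · exact Or.inr ⟨hx, hxR⟩
      have h3 : ((e 0).card : ℝ) ≤ W'.card := by exact_mod_cast Finset.card_le_card h2
      linarith
  refine ⟨i, hi1, him, ?_⟩
  -- `R'`
  have hec : (e i).card = s := hE _ (hpat.mem i him)
  obtain ⟨R', hR1, hR2, hR3⟩ := Finset.exists_subsuperset_card_eq
    (Finset.sdiff_subset_sdiff (hpat.sub i him) (Finset.Subset.refl C))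
    (n := r) ((Finset.card_le_card Finset.sdiff_subset).trans (hpat.card i him).le)
    (by
      have := Finset.le_card_sdiff C (e i)
      omega)
  have hne : (univ.filter (fun W' : Finset V => R' ∪ C ⊆ W')).Nonempty :=
    ⟨univ, Finset.mem_filter.mpr ⟨Finset.mem_univ _, Finset.subset_univ _⟩⟩
  obtain ⟨W', hW', hmin⟩ := Finset.exists_min_image _
    (fun W : Finset V => (W.card : ℝ) - θ * (idx e i W).card) hne
  rw [Finset.mem_filter] at hW'
  have hR'e : R' ⊆ e i := fun x hx => (Finset.mem_sdiff.mp (hR2 hx)).1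
  refine ⟨W', ?_, ?_, ?_⟩
  · rw [← hC]
    refine Finset.Subset.trans ?_ hW'.2
    intro x hx
    rw [Finset.mem_union] at hx ⊢
    rcases hx with hx | hx
    · by_cases hxC : x ∈ C
      · exact Or.inr hxC
      · exact Or.inl (hR1 (Finset.mem_sdiff.mpr ⟨hx, hxC⟩))
    · exact Or.inr hx
  · have h1 : (R' ∪ C).card = s := by
      rw [Finset.card_union_of_disjoint, hR3, hCc]
      · omega
      · rw [Finset.disjoint_left]
        intro x hx
        exact (Finset.mem_sdiff.mp (hR2 hx)).2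
    rw [← h1]
    exact Finset.card_le_card hW'.2
  · intro W hW
    rw [← hC] at hW
    have hRW : R' ∪ C ⊆ W := (Finset.union_subset_union hR'e Finset.Subset.rfl).trans hW
    have h1 := hmin W (Finset.mem_filter.mpr ⟨Finset.mem_univ _, hRW⟩)
    rcases h1.lt_or_eq with h2 | h2
    · exact h2
    · exfalso
      apply hbad
      refine ⟨R', hR2, hR3, W, hW, fun W'' hW'' => ?_⟩
      rw [hpot, hpot, ← h2]
      exact hmin W'' (Finset.mem_filter.mpr ⟨Finset.mem_univ _, hW''⟩)

/-- the bound for one term -/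
lemma term_bound {x c q θ ε δ : ℝ} {A B M : ℕ} (hx : 1 ≤ x) (hc : 1 ≤ c) (hq0 : 0 ≤ q)
    (hq : q ≤ c * x ^ (-θ + ε)) (hAB : (A : ℝ) - θ * B ≤ -δ) (hB : B ≤ M) (hε : 0 ≤ ε)
    (hεM : ε * M ≤ δ / 2) : x ^ A * q ^ B ≤ c ^ M * x ^ (-(δ / 2)) := by
  have hx0 : 0 < x := by linarith
  have h1 : q ^ B ≤ c ^ B * x ^ ((-θ + ε) * B) := by
    calc q ^ B ≤ (c * x ^ (-θ + ε)) ^ B := pow_le_pow_left₀ hq0 hq B
      _ = c ^ B * x ^ ((-θ + ε) * B) := by
          rw [mul_pow, ← Real.rpow_natCast (x ^ (-θ + ε)), ← Real.rpow_mul hx0.le]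
  have hBM : ε * B ≤ ε * M := mul_le_mul_of_nonneg_left (by exact_mod_cast hB) hε
  calc x ^ A * q ^ B ≤ x ^ A * (c ^ B * x ^ ((-θ + ε) * B)) :=
        mul_le_mul_of_nonneg_left h1 (by positivity)
    _ = c ^ B * x ^ ((A : ℝ) + (-θ + ε) * B) := by
        rw [Real.rpow_add hx0, Real.rpow_natCast]; ring
    _ ≤ c ^ M * x ^ (-(δ / 2)) := by
        apply mul_le_mul (pow_le_pow_right₀ hc hB) _ (by positivity) (by positivity)
        apply Real.rpow_le_rpow_of_exponent_le hx
        linarith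

lemma idx_card_le {V : Type} [DecidableEq V] (e : ℕ → Finset V) (i : ℕ) (W : Finset V) :
    (idx e i W).card ≤ i := by
  unfold idx
  have h := card_filter_le (range i) (fun j => e j ⊆ W)
  rwa [card_range] at h

lemma idx_mono {V : Type} [DecidableEq V] (e : ℕ → Finset V) (i : ℕ) {W W' : Finset V}
    (h : W ⊆ W') : (idx e i W).card ≤ (idx e i W').card := by
  unfold idx
  apply Finset.card_le_card
  intro j hj
  rw [Finset.mem_filter] at hj ⊢
  exact ⟨hj.1, hj.2.trans h⟩

/-- the bound for the expected number of copies of a pattern -/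
lemma pattern_bound (hLoss : LossStatement) (hAns : AnsStatement)
    {V : Type} [Fintype V] [DecidableEq V] {r s : ℕ} (hr : 1 ≤ r) (hrs : r < s)
    {E : Finset (Finset V)} (hE : ∀ f ∈ E, f.card = s) (hEne : E.Nonempty) {θ : ℝ}
    (hθ : 0 < θ) (hθm : θ * E.card = (Fintype.card V : ℝ) - s + r)
    (hnot : ¬ Constructible r s θ E) {δ : ℝ}
    (hgap : ∀ (e : ℕ → Finset V) (i : ℕ), i ≤ E.card → ∀ W W' : Finset V,
      (W'.card : ℝ) - θ * (idx e i W').card < (W.card : ℝ) - θ * (idx e i W).card →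
      δ ≤ ((W.card : ℝ) - θ * (idx e i W).card) - ((W'.card : ℝ) - θ * (idx e i W').card))
    {ε c : ℝ} (hε : 0 ≤ ε) (hεM : ε * ((3 * E.card : ℕ) : ℝ) ≤ δ / 2) (hc : 1 ≤ c) {n t : ℕ} (hn : 1 ≤ n)
    (hN : 0 < Fintype.card (RS r n)) (ht : t ≤ Fintype.card (RS r n))
    (hq : (t : ℝ) / Fintype.card (RS r n) ≤ c * (n : ℝ) ^ (-θ + ε)) (σ : Strat n)
    (χ : Fin n → V) {e R : ℕ → Finset V} (hpat : IsPattern r E e R) :
    (∑ ω : Om r n t, (cnt (ansOf σ t) χ e R E.card ω : ℝ)) / (Fintype.card (RS r n) : ℝ) ^ t ≤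
      Real.sqrt (2 ^ E.card * (2 ^ Fintype.card V * (c ^ (3 * E.card) * (n : ℝ) ^ (-(δ / 2))))) := by
  classical
  obtain ⟨i, hi1, him, W', hW', hsW', hmin⟩ := bad_edge hrs hE hEne hnot hpat
  have hL := hLoss V r s n t E hr hrs hE (ansOf σ t) (hAns r n t σ).1 hN ht χ e R hpat i hi1 him W' hW'
    (Or.inr hsW')
  apply Real.le_sqrt_of_sq_le
  refine hL.trans ?_
  have hx : (1 : ℝ) ≤ n := by exact_mod_cast hn
  have hq0 : (0 : ℝ) ≤ (t : ℝ) / Fintype.card (RS r n) := by positivity
  have hsv : s ≤ Fintype.card V := hsW'.trans (card_le_univ W')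
  have hterm : ∀ W ∈ univ.filter (fun W : Finset V => e i ⊆ W),
      (n : ℝ) ^ ((W'.card - (s - r)) + (Fintype.card V - (s - r)) +
        (Fintype.card V - (W ∪ (e 0 \ R 0)).card)) *
        ((t : ℝ) / Fintype.card (RS r n)) ^
          (2 * (E.card - i) + (idx e i W').card + (2 * i - (idx e i W).card)) ≤
      c ^ (3 * E.card) * (n : ℝ) ^ (-(δ / 2)) := by
    intro W hW
    rw [Finset.mem_filter] at hW
    have h1 := idx_card_le e i W'
    have h2 := idx_card_le e i W
    refine term_bound hx hc hq0 hq ?_ (by omega) hε hεM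
    have hWC : (W ∪ (e 0 \ R 0)).card ≤ Fintype.card V := card_le_univ _
    have hsub : e i ∪ (e 0 \ R 0) ⊆ W ∪ (e 0 \ R 0) :=
      Finset.union_subset_union hW.2 Finset.Subset.rfl
    have h3 := hgap e i him.le _ _ (hmin _ hsub)
    have h4 : ((idx e i W).card : ℝ) ≤ (idx e i (W ∪ (e 0 \ R 0))).card := by
      exact_mod_cast idx_mono e i Finset.subset_union_left
    have e1 : ((W'.card - (s - r) : ℕ) : ℝ) = W'.card - (s - r) := by
      rw [Nat.cast_sub (by omega), Nat.cast_sub hrs.le]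
    have e2 : ((Fintype.card V - (s - r) : ℕ) : ℝ) = Fintype.card V - (s - r) := by
      rw [Nat.cast_sub (by omega), Nat.cast_sub hrs.le]
    have e3 : ((Fintype.card V - (W ∪ (e 0 \ R 0)).card : ℕ) : ℝ) =
        Fintype.card V - (W ∪ (e 0 \ R 0)).card := Nat.cast_sub hWC
    have e4 : ((2 * (E.card - i) + (idx e i W').card + (2 * i - (idx e i W).card) : ℕ) : ℝ) =
        2 * E.card + (idx e i W').card - (idx e i W).card := by
      rw [Nat.cast_add, Nat.cast_add, Nat.cast_mul, Nat.cast_sub him.le,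
        Nat.cast_sub (by omega), Nat.cast_mul]
      push_cast
      ring
    rw [e4]
    push_cast [e1, e2, e3]
    have e5 : θ * (2 * E.card + (idx e i W').card - (idx e i W).card) =
        2 * (θ * E.card) + θ * (idx e i W').card - θ * (idx e i W).card := by ring
    rw [e5, hθm]
    have h5 : θ * ((idx e i W).card : ℝ) ≤ θ * (idx e i (W ∪ (e 0 \ R 0))).card :=
      mul_le_mul_of_nonneg_left h4 hθ.le
    linarith
  have hT0 : 0 ≤ c ^ (3 * E.card) * (n : ℝ) ^ (-(δ / 2)) := by positivity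
  have hsum := Finset.sum_le_card_nsmul _ _ _ hterm
  rw [nsmul_eq_mul] at hsum
  have hcard : ((univ.filter (fun W : Finset V => e i ⊆ W)).card : ℝ) ≤ 2 ^ Fintype.card V := by
    have h1 : (univ.filter (fun W : Finset V => e i ⊆ W)).card ≤ Fintype.card (Finset V) :=
      card_le_univ _
    rw [Fintype.card_finset] at h1
    exact_mod_cast h1
  have h2i : (2 : ℝ) ^ i ≤ 2 ^ E.card := pow_le_pow_right₀ (by norm_num) him.le
  apply mul_le_mul h2i _ (Finset.sum_nonneg fun W _ => by positivity) (by positivity)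
  exact hsum.trans (mul_le_mul_of_nonneg_right hcard hT0)

theorem fails (hU : UnionStatement) (hLoss : LossStatement) (hAns : AnsStatement) :
    FailsStatement := by
  classical
  intro V _ _ r s E hr hrs hE hEne θ hθr hθm hnot
  have hm : 0 < E.card := hEne.card_pos
  have hm1 : (1 : ℝ) ≤ E.card := by exact_mod_cast hm
  have hsv : s ≤ Fintype.card V := by
    obtain ⟨f, hf⟩ := hEne
    rw [← hE f hf]
    exact card_le_univ f
  have hθ : 0 < θ := by
    have h1 : (0 : ℝ) < θ * E.card := by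
      rw [hθm]
      have h2 : (s : ℝ) ≤ Fintype.card V := by exact_mod_cast hsv
      have h3 : (1 : ℝ) ≤ r := by exact_mod_cast hr
      linarith
    by_contra hcon
    rw [not_lt] at hcon
    nlinarith
  obtain ⟨δ, hδ, hgap⟩ := exists_pot_gap V θ E.card
  obtain ⟨c, hc⟩ : ∃ c : ℝ, c = 2 * (2 ^ r * r.factorial) := ⟨_, rfl⟩
  have hc1 : 1 ≤ c := by
    have h1 : (1 : ℝ) ≤ 2 ^ r := one_le_pow₀ (by norm_num)
    have h2 : (1 : ℝ) ≤ r.factorial := by exact_mod_cast Nat.one_le_iff_ne_zero.mpr (Nat.factorial_ne_zero r)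
    rw [hc]
    nlinarith [mul_le_mul h1 h2 (by norm_num) (by positivity)]
  obtain ⟨ε, hεdef⟩ : ∃ ε : ℝ, ε = min (δ / (6 * E.card)) (θ / 2) := ⟨_, rfl⟩
  have hε : 0 < ε := by
    rw [hεdef]
    exact lt_min (by positivity) (by positivity)
  have hε1 : ε ≤ δ / (6 * E.card) := hεdef ▸ min_le_left _ _
  have hε2 : ε ≤ θ / 2 := hεdef ▸ min_le_right _ _
  have hεM : ε * ((3 * E.card : ℕ) : ℝ) ≤ δ / 2 := by
    rw [le_div_iff₀ (by positivity)] at hε1
    push_cast
    nlinarith
  refine ⟨ε, hε, fun σ hσ => ?_⟩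
  -- the limit of the bound
  obtain ⟨K1, hK1⟩ : ∃ K1 : ℝ, K1 = (Fintype.card V : ℝ) ^ Fintype.card V *
    (2 ^ Fintype.card V * 2 ^ Fintype.card V) ^ E.card := ⟨_, rfl⟩
  have hlim1 : Tendsto (fun n : ℕ => (n : ℝ) ^ (-(δ / 2))) atTop (nhds 0) :=
    (tendsto_rpow_neg_atTop (by positivity)).comp tendsto_natCast_atTop_atTop
  have hlim : Tendsto (fun n : ℕ => K1 *
      Real.sqrt (2 ^ E.card * (2 ^ Fintype.card V * (c ^ (3 * E.card) * (n : ℝ) ^ (-(δ / 2)))))) atTop
      (nhds 0) := by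
    have h1 := (((hlim1.const_mul (c ^ (3 * E.card))).const_mul (2 ^ Fintype.card V)).const_mul
      (2 ^ E.card)).sqrt.const_mul K1
    simpa using h1
  -- `c n ^ (-θ + ε) ≤ 1`
  have hlarge : ∀ᶠ n : ℕ in atTop, c * (n : ℝ) ^ (-θ + ε) ≤ 1 := by
    have h1 : Tendsto (fun n : ℕ => c * (n : ℝ) ^ (-(θ - ε))) atTop (nhds (c * 0)) :=
      ((tendsto_rpow_neg_atTop (by linarith)).comp tendsto_natCast_atTop_atTop).const_mul c
    rw [mul_zero] at h1
    filter_upwards [h1.eventually (gt_mem_nhds one_pos)] with n hn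
    have e1 : -θ + ε = -(θ - ε) := by ring
    rw [e1]
    exact hn.le
  refine squeeze_zero' (Eventually.of_forall fun n =>
    div_nonneg (Nat.cast_nonneg _) (Nat.cast_nonneg _)) ?_ hlim
  filter_upwards [hlarge, eventually_ge_atTop (max (max 1 s) (2 * r))] with n hn hge
  have hn1 : 1 ≤ n := (le_max_left 1 s).trans ((le_max_left _ _).trans hge)
  have hns : s ≤ n := (le_max_right 1 s).trans ((le_max_left _ _).trans hge)
  have hnr : 2 * r ≤ n := (le_max_right _ _).trans hge
  have hN : 0 < Fintype.card (RS r n) := by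
    rw [card_RS]
    exact Nat.choose_pos (by omega)
  have hqb := (q_bounds (θ := θ - ε) (by linarith) hn1 hnr).2
  have e1 : (r : ℝ) - (θ - ε) = (r : ℝ) - θ + ε := by ring
  have e2 : -(θ - ε) = -θ + ε := by ring
  rw [e1, e2, ← hc] at hqb
  have hNR : (0 : ℝ) < Fintype.card (RS r n) := by exact_mod_cast hN
  have htN : ⌈(n : ℝ) ^ ((r : ℝ) - θ + ε)⌉₊ ≤ Fintype.card (RS r n) := by
    have h1 := hqb.trans hn
    rw [div_le_one hNR] at h1
    exact_mod_cast h1
  rw [hK1]
  exact hU V r s n _ E hrs hE hEne (σ n) (hσ n hns) _ (Real.sqrt_nonneg _) hN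
    fun χ e R hpat => pattern_bound hLoss hAns hr hrs hE hEne hθ hθm hnot hgap hε.le hεM hc1 hn1 hN
      htN hqb (σ n) χ hpat

end Pool.Agent.Lib.MP_426b05_co.H72
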