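import Pool.Agent.Lib.MP_426b05_co.Base

/-!
# S6: the choice of the parameters
-/

set_option autoImplicit false

namespace Pool.Agent.Lib.MP_426b05_co.H72

open Finset Filter Pool.Agent.Lib.MP_426b05_co

lemma card_RS (r n : ℕ) : Fintype.card (RS r n) = n.choose r := by
  rw [Fintype.card_finset_len, Fintype.card_fin]

/-- bounds for the number of `r`-sets -/
lemma choose_upper (r n : ℕ) : ((n.choose r : ℕ) : ℝ) ≤ (n : ℝ) ^ r := by
  exact_mod_cast Nat.choose_le_pow n r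

lemma choose_lower {r n : ℕ} (h : 2 * r ≤ n) :
    (n : ℝ) ^ r ≤ (2 ^ r * r.factorial : ℝ) * ((n.choose r : ℕ) : ℝ) := by
  have h1 := Nat.pow_le_choose (α := ℝ) r n
  have h2 : (n : ℝ) / 2 ≤ ((n + 1 - r : ℕ) : ℝ) := by
    have h3 : n ≤ 2 * (n + 1 - r) := by omega
    have h4 : (n : ℝ) ≤ 2 * ((n + 1 - r : ℕ) : ℝ) := by exact_mod_cast h3
    linarith
  have h3 : ((n : ℝ) / 2) ^ r ≤ (((n + 1 - r : ℕ) : ℝ)) ^ r := pow_le_pow_left₀ (by positivity) h2 r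
  have h4 : (n : ℝ) ^ r = 2 ^ r * ((n : ℝ) / 2) ^ r := by
    rw [← mul_pow]; congr 1; ring
  have hf : (0 : ℝ) < (r.factorial : ℝ) := by exact_mod_cast r.factorial_pos
  rw [div_le_iff₀ hf] at h1
  calc (n : ℝ) ^ r = 2 ^ r * ((n : ℝ) / 2) ^ r := h4
    _ ≤ 2 ^ r * (((n.choose r : ℕ) : ℝ) * r.factorial) :=
        mul_le_mul_of_nonneg_left (h3.trans h1) (by positivity)
    _ = _ := by ring

/-- the proportion `q = L / N` -/
lemma q_bounds {r n : ℕ} {θ : ℝ} (hθr : θ ≤ r) (hn : 1 ≤ n) (hrn : 2 * r ≤ n) :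
    (n : ℝ) ^ (-θ) ≤ (⌈(n : ℝ) ^ ((r : ℝ) - θ)⌉₊ : ℝ) / Fintype.card (RS r n) ∧
    (⌈(n : ℝ) ^ ((r : ℝ) - θ)⌉₊ : ℝ) / Fintype.card (RS r n) ≤
      (2 * (2 ^ r * r.factorial) : ℝ) * (n : ℝ) ^ (-θ) := by
  have hx : (1 : ℝ) ≤ n := by exact_mod_cast hn
  have hx0 : (0 : ℝ) < n := by linarith
  have hN : 0 < n.choose r := Nat.choose_pos (by omega)
  have hNr : (0 : ℝ) < ((n.choose r : ℕ) : ℝ) := by exact_mod_cast hN
  rw [card_RS]
  obtain ⟨y, hy⟩ : ∃ y, y = (n : ℝ) ^ ((r : ℝ) - θ) := ⟨_, rfl⟩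
  have hy1 : 1 ≤ y := by rw [hy]; exact Real.one_le_rpow hx (by linarith)
  have hyx : (n : ℝ) ^ (-θ) * (n : ℝ) ^ r = y := by
    rw [hy, ← Real.rpow_natCast, ← Real.rpow_add hx0]
    congr 1; ring
  rw [← hy]
  have hL1 : y ≤ (⌈y⌉₊ : ℝ) := Nat.le_ceil y
  have hL2 : (⌈y⌉₊ : ℝ) ≤ 2 * y := by
    have := Nat.ceil_lt_add_one (show 0 ≤ y by linarith)
    linarith
  have hxθ : 0 < (n : ℝ) ^ (-θ) := Real.rpow_pos_of_pos hx0 _
  constructor
  · rw [le_div_iff₀ hNr]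
    calc (n : ℝ) ^ (-θ) * ((n.choose r : ℕ) : ℝ) ≤ (n : ℝ) ^ (-θ) * (n : ℝ) ^ r :=
          mul_le_mul_of_nonneg_left (choose_upper r n) hxθ.le
      _ = y := hyx
      _ ≤ _ := hL1
  · rw [div_le_iff₀ hNr]
    calc (⌈y⌉₊ : ℝ) ≤ 2 * y := hL2
      _ = 2 * ((n : ℝ) ^ (-θ) * (n : ℝ) ^ r) := by rw [hyx]
      _ ≤ 2 * ((n : ℝ) ^ (-θ) * ((2 ^ r * r.factorial : ℝ) * ((n.choose r : ℕ) : ℝ))) := by
          apply mul_le_mul_of_nonneg_left _ (by norm_num)
          exact mul_le_mul_of_nonneg_left (choose_lower hrn) hxθ.le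
      _ = _ := by ring

/-- the classes -/
lemma exists_classes {V : Type} [Fintype V] [DecidableEq V] {n : ℕ} (b : V → ℕ)
    (hb : ∑ a, b a ≤ n) : ∃ B : V → Finset (Fin n), (∀ a, (B a).card = b a) ∧
      ∀ a a', a ≠ a' → Disjoint (B a) (B a') := by
  classical
  obtain ⟨g⟩ : Nonempty ((Σ a : V, Fin (b a)) ↪ Fin n) := by
    apply Function.Embedding.nonempty_of_card_le
    rw [Fintype.card_sigma, Fintype.card_fin]
    simpa using hb
  refine ⟨fun a => univ.image fun i : Fin (b a) => g ⟨a, i⟩, fun a => ?_, fun a a' haa => ?_⟩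
  · rw [Finset.card_image_of_injective, card_univ, Fintype.card_fin]
    intro i j hij
    have h := g.injective hij
    simpa using h
  · rw [Finset.disjoint_left]
    intro x hx hx'
    rw [mem_image] at hx hx'
    obtain ⟨i, -, hi⟩ := hx
    obtain ⟨i', -, hi'⟩ := hx'
    have h := g.injective (hi.trans hi'.symm)
    exact haa (congrArg Sigma.fst h)

/-- the number of touched edges -/
lemma touch_card {V : Type} [Fintype V] [DecidableEq V] (e : ℕ → Finset V) (j : ℕ)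
    (W D : Finset V) :
    (idx e j W).card = (idx e j (W \ D)).card + (touch e j W D).card := by
  classical
  unfold idx touch
  rw [← Finset.card_union_of_disjoint]
  · congr 1
    ext l
    simp only [mem_filter, mem_union, mem_range, Finset.subset_sdiff]
    constructor
    · rintro ⟨h1, h2⟩
      by_cases h3 : Disjoint (e l) D
      · exact Or.inl ⟨h1, h2, h3⟩
      · exact Or.inr ⟨h1, h2, h3⟩
    · rintro (⟨h1, h2, -⟩ | ⟨h1, h2, -⟩)
      · exact ⟨h1, h2⟩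
      · exact ⟨h1, h2⟩
  · rw [Finset.disjoint_left]
    intro l hl hl'
    rw [mem_filter, Finset.subset_sdiff] at hl
    rw [mem_filter] at hl'
    exact hl'.2.2 hl.2.2

/-- **S6** -/
theorem s6 : S6Statement := by
  classical
  intro V _ _ r θ E α e R W hr hθ hθr hplan
  obtain ⟨m, hm⟩ : ∃ m, m = E.card := ⟨_, rfl⟩
  obtain ⟨v, hv⟩ : ∃ v, v = Fintype.card V := ⟨_, rfl⟩
  obtain ⟨c₁, hc₁⟩ : ∃ c₁ : ℝ, c₁ = 2 * (2 ^ r * r.factorial) := ⟨_, rfl⟩
  have hc₁1 : 1 ≤ c₁ := by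
    have h1 : (1 : ℝ) ≤ 2 ^ r := one_le_pow₀ (by norm_num)
    have h2 : (1 : ℝ) ≤ (r.factorial : ℝ) := by exact_mod_cast r.factorial_pos
    rw [hc₁]; nlinarith
  obtain ⟨D₀, hD₀⟩ : ∃ D₀ : ℝ, D₀ = (m : ℝ) * 2 ^ v * 2 ^ (m + 1) := ⟨_, rfl⟩
  have hD₀0 : 0 ≤ D₀ := by rw [hD₀]; positivity
  obtain ⟨β, hβ⟩ : ∃ β : ℝ, β = (1 + 2 * v + D₀ * c₁ ^ m)⁻¹ := ⟨_, rfl⟩
  have hden : 0 < 1 + 2 * (v : ℝ) + D₀ * c₁ ^ m := by positivity
  have hβ0 : 0 < β := by rw [hβ]; positivity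
  have hβmul : β * (1 + 2 * v + D₀ * c₁ ^ m) = 1 := by rw [hβ]; exact inv_mul_cancel₀ hden.ne'
  have hvβ0 : 0 ≤ β * v := by positivity
  have hDβ0 : 0 ≤ β * (D₀ * c₁ ^ m) := by positivity
  have hβ1 : β ≤ 1 := by nlinarith
  have hβv : β * v ≤ 1 / 2 := by nlinarith
  have hβD : D₀ * (β * c₁ ^ m) ≤ 1 := by nlinarith
  refine ⟨(β ^ v)⁻¹, by positivity, ?_⟩
  have hpow : Tendsto (fun n : ℕ => (n : ℝ) ^ θ) atTop atTop :=
    (tendsto_rpow_atTop hθ).comp tendsto_natCast_atTop_atTop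
  filter_upwards [eventually_ge_atTop (2 * r + 2 * v + 1),
    hpow.eventually (eventually_ge_atTop c₁)] with n hn hnθ
  have hx : (1 : ℝ) ≤ n := by exact_mod_cast (by omega : 1 ≤ n)
  have hx0 : (0 : ℝ) < n := by linarith
  have hN : 0 < Fintype.card (RS r n) := by rw [card_RS]; exact Nat.choose_pos (by omega)
  have hNr : (0 : ℝ) < (Fintype.card (RS r n) : ℝ) := by exact_mod_cast hN
  obtain ⟨hq1, hq2⟩ := q_bounds (r := r) (n := n) (θ := θ) hθr (by omega) (by omega)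
  rw [← hc₁] at hq2
  obtain ⟨L, hL⟩ : ∃ L, L = ⌈(n : ℝ) ^ ((r : ℝ) - θ)⌉₊ := ⟨_, rfl⟩
  rw [← hL] at hq1 hq2 ⊢
  have hxθ : (n : ℝ) ^ (-θ) * (n : ℝ) ^ θ = 1 := by
    rw [← Real.rpow_add hx0]; simp
  have hxθ0 : 0 < (n : ℝ) ^ (-θ) := Real.rpow_pos_of_pos hx0 _
  obtain ⟨q, hq⟩ : ∃ q : ℝ, q = (L : ℝ) / Fintype.card (RS r n) := ⟨_, rfl⟩
  rw [← hq] at hq1 hq2
  have hq0 : 0 < q := lt_of_lt_of_le hxθ0 hq1
  refine ⟨hN, ?_, ?_, ?_⟩
  · rw [hL, Nat.one_le_ceil_iff]; positivity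
  · have h1 : q ≤ 1 := by
      calc q ≤ c₁ * (n : ℝ) ^ (-θ) := hq2
        _ ≤ (n : ℝ) ^ θ * (n : ℝ) ^ (-θ) := mul_le_mul_of_nonneg_right hnθ hxθ0.le
        _ = 1 := by rw [mul_comm]; exact hxθ
    rw [hq, div_le_one hNr] at h1
    exact_mod_cast h1
  -- the classes
  obtain ⟨b, hb⟩ : ∃ b : V → ℕ, ∀ a, b a = ⌈β * (n : ℝ) ^ α a⌉₊ :=
    ⟨fun a => ⌈β * (n : ℝ) ^ α a⌉₊, fun _ => rfl⟩
  have hbx : ∀ a, 0 < β * (n : ℝ) ^ α a := fun a => mul_pos hβ0 (Real.rpow_pos_of_pos hx0 _)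
  have hb1 : ∀ a, 1 ≤ b a := fun a => by rw [hb, Nat.one_le_ceil_iff]; exact hbx a
  have hblow : ∀ a, β * (n : ℝ) ^ α a ≤ b a := fun a => by rw [hb]; exact Nat.le_ceil _
  have hbup : ∀ a, ((b a - 1 : ℕ) : ℝ) ≤ β * (n : ℝ) ^ α a := by
    intro a
    rw [Nat.cast_sub (hb1 a), hb]
    have := Nat.ceil_lt_add_one (hbx a).le
    push_cast
    linarith
  have hbsum : ∑ a, b a ≤ n := by
    have h1 : ∑ a, (b a : ℝ) ≤ ∑ _a : V, (β * n + 1) := by
      apply Finset.sum_le_sum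
      intro a _
      have h2 := hbup a
      rw [Nat.cast_sub (hb1 a)] at h2
      have h3 : (n : ℝ) ^ α a ≤ n := by
        calc (n : ℝ) ^ α a ≤ (n : ℝ) ^ (1 : ℝ) :=
              Real.rpow_le_rpow_of_exponent_le hx (hplan.le_one a)
          _ = n := Real.rpow_one _
      have h4 := mul_le_mul_of_nonneg_left h3 hβ0.le
      push_cast at h2
      linarith
    rw [Finset.sum_const, card_univ, ← hv, nsmul_eq_mul] at h1
    have h2 : (v : ℝ) ≤ n / 2 := by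
      have h3 : 2 * v ≤ n := by omega
      have h4 : (2 : ℝ) * v ≤ n := by exact_mod_cast h3
      linarith
    have h3 : (v : ℝ) * (β * n + 1) ≤ n := by
      have h4 : β * v * n ≤ 1 / 2 * n := mul_le_mul_of_nonneg_right hβv hx0.le
      nlinarith
    have h4 : ((∑ a, b a : ℕ) : ℝ) ≤ n := by push_cast; linarith
    exact_mod_cast h4
  obtain ⟨B, hBc, hBd⟩ := exists_classes b hbsum
  refine ⟨B, fun a => ?_, hBd, ?_, ?_⟩
  · rw [← Finset.card_pos, hBc]; exact hb1 a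
  · intro j hj D hD hDne hDt
    rw [← hm, ← hv, ← hD₀, ← hq]
    obtain ⟨T, hT⟩ : ∃ T, T = (touch e j (W j) D).card := ⟨_, rfl⟩
    rw [← hT]
    have hTm : T ≤ m := by
      rw [hT]
      unfold touch
      refine (card_filter_le _ _).trans ?_
      rw [card_range]; omega
    -- the exponent
    have hexp : ∑ a ∈ D, α a ≤ θ * T := by
      have hRW : R j ⊆ W j \ D := by
        intro a ha
        rw [Finset.mem_sdiff]
        refine ⟨hplan.sub j hj (hplan.pat.sub j hj ha), fun haD => ?_⟩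
        exact (Finset.mem_sdiff.mp (hD haD)).2 ha
      have h1 := hplan.closed j hj (W j \ D) hRW
      have hDW : D ⊆ W j := fun a ha => (Finset.mem_sdiff.mp (hD ha)).1
      have h2 := Finset.sum_sdiff (f := α) hDW
      have h3 : ((idx e j (W j)).card : ℝ) = (idx e j (W j \ D)).card + T := by
        rw [hT]; exact_mod_cast touch_card e j (W j) D
      rw [h3] at h1
      linarith
    have hprod : ∏ a ∈ D, (((B a).card - 1 : ℕ) : ℝ) ≤ β * (n : ℝ) ^ (∑ a ∈ D, α a) := by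
      calc ∏ a ∈ D, (((B a).card - 1 : ℕ) : ℝ) ≤ ∏ a ∈ D, (β * (n : ℝ) ^ α a) := by
            apply Finset.prod_le_prod
            · intro a _; positivity
            · intro a _; rw [hBc]; exact hbup a
        _ = β ^ D.card * (n : ℝ) ^ (∑ a ∈ D, α a) := by
            rw [Finset.prod_mul_distrib, Finset.prod_const, Real.rpow_sum_of_pos hx0]
        _ ≤ β * (n : ℝ) ^ (∑ a ∈ D, α a) := by
            apply mul_le_mul_of_nonneg_right _ (by positivity)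
            exact pow_le_of_le_one hβ0.le hβ1 hDne.card_pos.ne'
    have hqT : q ^ T ≤ c₁ ^ m * (n : ℝ) ^ (-(θ * T)) := by
      calc q ^ T ≤ (c₁ * (n : ℝ) ^ (-θ)) ^ T := pow_le_pow_left₀ hq0.le hq2 T
        _ = c₁ ^ T * (n : ℝ) ^ (-(θ * T)) := by
            rw [mul_pow, ← Real.rpow_natCast ((n : ℝ) ^ (-θ)), ← Real.rpow_mul hx0.le]
            congr 2; ring
        _ ≤ c₁ ^ m * (n : ℝ) ^ (-(θ * T)) :=
            mul_le_mul_of_nonneg_right (pow_le_pow_right₀ hc₁1 hTm) (by positivity)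
    have hmul : (∏ a ∈ D, (((B a).card - 1 : ℕ) : ℝ)) * q ^ T ≤ β * c₁ ^ m := by
      calc (∏ a ∈ D, (((B a).card - 1 : ℕ) : ℝ)) * q ^ T
          ≤ (β * (n : ℝ) ^ (∑ a ∈ D, α a)) * (c₁ ^ m * (n : ℝ) ^ (-(θ * T))) :=
            mul_le_mul hprod hqT (by positivity) (by positivity)
        _ = β * c₁ ^ m * (n : ℝ) ^ ((∑ a ∈ D, α a) + -(θ * T)) := by
            rw [Real.rpow_add hx0]; ring
        _ ≤ β * c₁ ^ m * 1 := by
            apply mul_le_mul_of_nonneg_left _ (by positivity)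
            exact Real.rpow_le_one_of_one_le_of_nonpos hx (by linarith)
        _ = β * c₁ ^ m := mul_one _
    exact (mul_le_mul_of_nonneg_left hmul hD₀0).trans hβD
  · intro W₀
    rw [← hm, ← hq]
    obtain ⟨T, hT⟩ : ∃ T, T = (idx e m W₀).card := ⟨_, rfl⟩
    rw [← hT]
    have hbal : θ * T ≤ ∑ a ∈ W₀, α a := by
      have := hplan.balanced W₀
      rw [← hm, ← hT] at this
      exact this
    have hprod : β ^ v * (n : ℝ) ^ (∑ a ∈ W₀, α a) ≤ ∏ a ∈ W₀, ((B a).card : ℝ) := by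
      calc β ^ v * (n : ℝ) ^ (∑ a ∈ W₀, α a)
          ≤ β ^ W₀.card * (n : ℝ) ^ (∑ a ∈ W₀, α a) := by
            apply mul_le_mul_of_nonneg_right _ (by positivity)
            apply pow_le_pow_of_le_one hβ0.le hβ1
            rw [hv]; exact card_le_univ _
        _ = ∏ a ∈ W₀, (β * (n : ℝ) ^ α a) := by
            rw [Finset.prod_mul_distrib, Finset.prod_const, Real.rpow_sum_of_pos hx0]
        _ ≤ ∏ a ∈ W₀, ((B a).card : ℝ) := by
            apply Finset.prod_le_prod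
            · intro a _; exact (hbx a).le
            · intro a _; rw [hBc]; exact hblow a
    have hqT : (n : ℝ) ^ (-(θ * T)) ≤ q ^ T := by
      calc (n : ℝ) ^ (-(θ * T)) = ((n : ℝ) ^ (-θ)) ^ T := by
            rw [← Real.rpow_natCast ((n : ℝ) ^ (-θ)), ← Real.rpow_mul hx0.le]
            congr 1; ring
        _ ≤ q ^ T := pow_le_pow_left₀ hxθ0.le hq1 T
    have hmul : β ^ v ≤ (∏ a ∈ W₀, ((B a).card : ℝ)) * q ^ T := by
      calc β ^ v = β ^ v * 1 := (mul_one _).symm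
        _ ≤ β ^ v * (n : ℝ) ^ ((∑ a ∈ W₀, α a) + -(θ * T)) := by
            apply mul_le_mul_of_nonneg_left _ (by positivity)
            exact Real.one_le_rpow hx (by linarith)
        _ = (β ^ v * (n : ℝ) ^ (∑ a ∈ W₀, α a)) * (n : ℝ) ^ (-(θ * T)) := by
            rw [Real.rpow_add hx0]; ring
        _ ≤ _ := mul_le_mul hprod hqT (by positivity) (le_trans (by positivity) hprod)
    calc (1 : ℝ) = (β ^ v)⁻¹ * β ^ v := (inv_mul_cancel₀ (by positivity)).symm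
      _ ≤ _ := mul_le_mul_of_nonneg_left hmul (by positivity)

end Pool.Agent.Lib.MP_426b05_co.H72
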