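import Pool.Agent.Lib.MP_426b05_co.Base

/-!
# S7: the strategy
-/

set_option autoImplicit false
set_option linter.unusedSectionVars false

namespace Pool.Agent.Lib.MP_426b05_co.H72

open Finset Filter Pool.Agent.Lib.MP_426b05_co

/-! ### Runs -/

section run
variable {n : ℕ} (σ : Strat n)

lemma run_snoc (us : List (Finset (Fin n))) (U : Finset (Fin n)) :
    run σ (us ++ [U]) = run σ us ++ [(U, σ (run σ us) U)] := by
  unfold run
  rw [List.foldl_append]
  rfl

lemma run_length (us : List (Finset (Fin n))) : (run σ us).length = us.length := by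
  induction us using List.reverseRecOn with
  | nil => rfl
  | append_singleton us U ih => rw [run_snoc, List.length_append, List.length_append, ih]; rfl

lemma run_get (us : List (Finset (Fin n))) (i : ℕ) (hi : i < us.length) :
    (run σ us)[i]? = some (us[i], σ (run σ (us.take i)) us[i]) := by
  induction us using List.reverseRecOn with
  | nil => simp at hi
  | append_singleton us U ih =>
    rw [run_snoc]
    rw [List.length_append, List.length_singleton] at hi
    by_cases h : i < us.length
    · rw [List.getElem?_append_left (by rw [run_length]; exact h), ih h]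
      rw [List.getElem_append_left h, List.take_append_of_le_length h.le]
    · have hi' : i = us.length := by omega
      subst hi'
      rw [List.getElem?_append_right (by rw [run_length])]
      rw [run_length, Nat.sub_self]
      simp

end run

/-! ### The answers -/

section ans
open Classical
variable {V : Type} [Fintype V] [DecidableEq V] {r n : ℕ}

/-- a default answer -/
noncomputable def dflt (r s : ℕ) (U : Finset (Fin n)) : Finset (Fin n) :=
  if h : ∃ D : Finset (Fin n), D.card = s - r ∧ Disjoint U D then h.choose else ∅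

/-- the answer given by a family of maps `ψ` -/
noncomputable def pick (s : ℕ) (e R : ℕ → Finset V) (j : ℕ) (U : RS r n)
    (P : (V → Fin n) → Prop) : Finset (Fin n) :=
  if h : ∃ ψ, P ψ then (e j \ R j).image h.choose else dflt r s U.1

/-- the maps `ψ` that may be used in phase `j` -/
def Good (B : V → Finset (Fin n)) (e R W : ℕ → Finset V) (A : ℕ → Finset (RS r n))
    (T : ℕ → RS r n → Finset (Fin n)) (j : ℕ) (U : RS r n) (ψ : V → Fin n) : Prop :=
  (∀ a, ψ a ∈ B a) ∧ (R j).image ψ = U.1 ∧ ∀ l < j, e l ⊆ W j → Pres T A e R l ψ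

noncomputable def step (s : ℕ) (B : V → Finset (Fin n)) (e R W : ℕ → Finset V)
    (A : ℕ → Finset (RS r n)) (T : ℕ → RS r n → Finset (Fin n)) (j : ℕ) (U : RS r n) :
    Finset (Fin n) := pick s e R j U (Good B e R W A T j U)

noncomputable def tab (s : ℕ) (B : V → Finset (Fin n)) (e R W : ℕ → Finset V)
    (A : ℕ → Finset (RS r n)) : ℕ → ℕ → RS r n → Finset (Fin n)
  | 0 => fun _ _ => ∅
  | (j + 1) => Function.update (tab s B e R W A j) j (step s B e R W A (tab s B e R W A j) j)

/-- the answers of phase `j` -/
noncomputable def FF (s : ℕ) (B : V → Finset (Fin n)) (e R W : ℕ → Finset V)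
    (A : ℕ → Finset (RS r n)) (j : ℕ) : RS r n → Finset (Fin n) :=
  step s B e R W A (tab s B e R W A j) j

variable {s : ℕ} {B : V → Finset (Fin n)} {e R W : ℕ → Finset V} {A A' : ℕ → Finset (RS r n)}

lemma tab_lt {j l : ℕ} (h : l < j) : tab s B e R W A j l = FF s B e R W A l := by
  induction j with
  | zero => omega
  | succ j ih =>
    unfold tab
    by_cases hl : l = j
    · subst hl
      rw [Function.update_self]
      rfl
    · rw [Function.update_of_ne hl]
      exact ih (by omega)

lemma pres_congr {T T' : ℕ → RS r n → Finset (Fin n)} {l : ℕ} (h : T l = T' l) (h' : A l = A' l)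
    (ψ : V → Fin n) : Pres T A e R l ψ ↔ Pres T' A' e R l ψ := by
  unfold Pres
  rw [h, h']

lemma good_congr {T T' : ℕ → RS r n → Finset (Fin n)} {j : ℕ} (h : ∀ l < j, T l = T' l)
    (h' : ∀ l < j, A l = A' l) (U : RS r n) :
    Good B e R W A T j U = Good B e R W A' T' j U := by
  funext ψ
  apply propext
  unfold Good
  constructor
  · rintro ⟨h1, h2, h3⟩
    exact ⟨h1, h2, fun l hl hW => (pres_congr (h l hl) (h' l hl) ψ).mp (h3 l hl hW)⟩
  · rintro ⟨h1, h2, h3⟩
    exact ⟨h1, h2, fun l hl hW => (pres_congr (h l hl) (h' l hl) ψ).mpr (h3 l hl hW)⟩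

lemma FF_eq (j : ℕ) (U : RS r n) : FF s B e R W A j U =
    pick s e R j U (Good B e R W A (FF s B e R W A) j U) := by
  have h : Good B e R W A (tab s B e R W A j) j U = Good B e R W A (FF s B e R W A) j U :=
    good_congr (fun l hl => tab_lt hl) (fun _ _ => rfl) U
  unfold FF step
  unfold FF step at h
  rw [h]

lemma FF_local (j : ℕ) (h : ∀ l < j, A l = A' l) :
    FF s B e R W A j = FF s B e R W A' j := by
  induction j using Nat.strong_induction_on with
  | _ j ih =>
    funext U
    rw [FF_eq, FF_eq]
    have : Good B e R W A (FF s B e R W A) j U = Good B e R W A' (FF s B e R W A') j U :=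
      good_congr (fun l hl => ih l hl fun l' hl' => h l' (hl'.trans hl)) h U
    rw [this]

lemma choice_FF (m : ℕ) : Choice B (FF s B e R W A) A e R W m := by
  intro j _ U ψ hψ hU hpres
  have hex : ∃ ψ, Good B e R W A (FF s B e R W A) j U ψ := ⟨ψ, hψ, hU, hpres⟩
  obtain ⟨h1, h2, h3⟩ := hex.choose_spec
  refine ⟨hex.choose, h1, h2, h3, ?_⟩
  rw [FF_eq, pick, dif_pos hex]

lemma inj_of_class (hB : ∀ a b, a ≠ b → Disjoint (B a) (B b)) {ψ : V → Fin n}
    (hψ : ∀ a, ψ a ∈ B a) : Function.Injective ψ := by
  intro a b hab
  by_contra hne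
  have := Finset.disjoint_left.mp (hB a b hne) (hψ a)
  rw [hab] at this
  exact this (hψ b)

lemma dflt_spec (hrs : r < s) (hsn : s ≤ n) {U : Finset (Fin n)} (hU : U.card = r) :
    (dflt r s U).card = s - r ∧ Disjoint U (dflt r s U) := by
  have hex : ∃ D : Finset (Fin n), D.card = s - r ∧ Disjoint U D := by
    obtain ⟨D, hD, hDc⟩ := Finset.exists_subset_card_eq (s := univ \ U) (n := s - r) (by
      rw [Finset.card_sdiff_of_subset (subset_univ U), card_univ, Fintype.card_fin, hU]
      omega)
    exact ⟨D, hDc, Finset.disjoint_of_subset_right hD disjoint_sdiff⟩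
  rw [dflt, dif_pos hex]
  exact hex.choose_spec

lemma FF_legal (hrs : r < s) (hsn : s ≤ n) (hB : ∀ a b, a ≠ b → Disjoint (B a) (B b))
    {j : ℕ} (he : (e j).card = s) (hR : R j ⊆ e j) (hRc : (R j).card = r) (U : RS r n) :
    (FF s B e R W A j U).card = s - r ∧ Disjoint U.1 (FF s B e R W A j U) := by
  rw [FF_eq, pick]
  split_ifs with h
  · obtain ⟨h1, h2, -⟩ := h.choose_spec
    have hinj := inj_of_class hB h1
    constructor
    · rw [Finset.card_image_of_injective _ hinj, Finset.card_sdiff_of_subset hR, he, hRc]
    · rw [← h2]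
      exact (Finset.disjoint_image hinj).mpr disjoint_sdiff
  · exact dflt_spec hrs hsn U.2

end ans

/-! ### The strategy -/

section strat
open Classical
variable {V : Type} [Fintype V] [DecidableEq V] {n : ℕ}

/-- the sets offered in phase `l` of the round `κ`, read off from the history -/
noncomputable def hh (r : ℕ) (h : Hist n) (κ M L l : ℕ) : Finset (RS r n) :=
  univ.filter fun U : RS r n => ∃ i < L, (h[κ * M + (l * L + i)]?).map Prod.fst = some U.1

noncomputable def strat (r s m L : ℕ) (B : V → Finset (Fin n)) (e R W : ℕ → Finset V) : Strat n :=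
  fun h U => if hU : U.card = r then
    FF s B e R W (fun l => hh r h (h.length / (m * L)) (m * L) L l)
      ((h.length % (m * L)) / L) ⟨U, hU⟩ else ∅

end strat

open Classical in
/-- **S7** -/
theorem s7 : S7Statement := by
  intro V _ _ r s n L E B e R W hr hrs hsn hL hE hEne hB hpat
  have hm : 0 < E.card := hEne.card_pos
  refine ⟨fun ρ => FF s B e R W (hits ρ), strat r s E.card L B e R W, ?_, ?_, ?_⟩
  · intro ρ
    exact choice_FF _
  · intro h U hU
    have hlt : (h.length % (E.card * L)) / L < E.card := by
      rw [Nat.div_lt_iff_lt_mul (by omega)]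
      exact Nat.mod_lt _ (Nat.mul_pos hm (by omega))
    unfold strat
    rw [dif_pos hU]
    exact FF_legal hrs hsn hB (hE _ (hpat.mem _ hlt)) (hpat.sub _ hlt) (hpat.card _ hlt) ⟨U, hU⟩
  · intro t u κ hκ hz
    obtain ⟨M, hM⟩ : ∃ M, M = E.card * L := ⟨_, rfl⟩
    have hM0 : 0 < M := by rw [hM]; exact Nat.mul_pos hm (by omega)
    have hκM : κ * M + M ≤ t := by
      have : (κ + 1) * (E.card * L) = κ * M + M := by rw [hM]; ring
      omega
    have hidx : ∀ j < E.card, ∀ i < L, κ * M + (j * L + i) < t ∧ j * L + i < M := by
      intro j hj i hi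
      have h1 : (j + 1) * L ≤ E.card * L := Nat.mul_le_mul_right L hj
      have h2 : (j + 1) * L = j * L + L := by ring
      omega
    set ρ : Fin E.card → Fin L → RS r n := fun j i => u ⟨κ * (E.card * L) + (j.1 * L + i.1), by
              have h1 : j.1 * L + i.1 < E.card * L := by
                have := j.2; have := i.2; nlinarith
              have h2 : (κ + 1) * (E.card * L) = κ * (E.card * L) + E.card * L := by ring
              omega⟩ with hρ
    obtain ⟨us, hus⟩ : ∃ us : List (Finset (Fin n)), us = List.ofFn fun i => (u i).1 := ⟨_, rfl⟩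
    have husl : us.length = t := by rw [hus]; exact List.length_ofFn
    have husg : ∀ (i : ℕ) (hi : i < t), us[i]'(by rw [husl]; exact hi) = (u ⟨i, hi⟩).1 := by
      intro i hi
      simp only [hus, List.getElem_ofFn]
    rw [← hus]
    -- the entries of the history in the round `κ`
    have hentry : ∀ (j : ℕ) (hj : j < E.card) (i : ℕ) (hi : i < L),
        (run (strat r s E.card L B e R W) us)[κ * M + (j * L + i)]? =
          some ((ρ ⟨j, hj⟩ ⟨i, hi⟩).1, FF s B e R W (hits ρ) j (ρ ⟨j, hj⟩ ⟨i, hi⟩)) := by
      intro j hj i hi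
      obtain ⟨hlt, hltM⟩ := hidx j hj i hi
      have hρji : ρ ⟨j, hj⟩ ⟨i, hi⟩ = u ⟨κ * M + (j * L + i), hlt⟩ := by
        rw [hρ]; subst hM; rfl
      rw [run_get _ us _ (by rw [husl]; exact hlt)]
      rw [husg _ hlt, hρji]
      congr 2
      set h := run (strat r s E.card L B e R W) (us.take (κ * M + (j * L + i))) with hh'
      have hlen : h.length = κ * M + (j * L + i) := by
        rw [hh', run_length, List.length_take, husl]; omega
      unfold strat
      rw [dif_pos (u ⟨κ * M + (j * L + i), hlt⟩).2, ← hM, hlen]
      have hdiv : (κ * M + (j * L + i)) / M = κ := by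
        rw [Nat.mul_comm κ M, Nat.mul_add_div hM0, Nat.div_eq_of_lt hltM, Nat.add_zero]
      have hmod : (κ * M + (j * L + i)) % M = j * L + i := by
        rw [Nat.mul_comm κ M, Nat.mul_add_mod, Nat.mod_eq_of_lt hltM]
      have hph : (j * L + i) / L = j := by
        rw [Nat.mul_comm j L, Nat.mul_add_div (by omega), Nat.div_eq_of_lt hi, Nat.add_zero]
      rw [hdiv, hmod, hph]
      have hloc : FF s B e R W (fun l => hh r h κ M L l) j = FF s B e R W (hits ρ) j := by
        apply FF_local
        intro l hl
        have hlm : l < E.card := hl.trans hj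
        have hget : ∀ i' < L, ∀ (h2 : κ * M + (l * L + i') < t),
            (h[κ * M + (l * L + i')]?).map Prod.fst =
              some (u ⟨κ * M + (l * L + i'), h2⟩).1 := by
          intro i' hi' h2
          have h3 : l * L + i' < j * L + i := by
            have h4 : (l + 1) * L ≤ j * L := Nat.mul_le_mul_right L hl
            have h5 : (l + 1) * L = l * L + L := by ring
            omega
          have h6 : κ * M + (l * L + i') < (us.take (κ * M + (j * L + i))).length := by
            rw [List.length_take, husl]; omega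
          rw [hh', run_get _ _ _ h6]
          rw [Option.map_some, List.getElem_take, husg _ h2]
        ext U
        unfold hh hits
        rw [dif_pos hlm, mem_filter, mem_image]
        constructor
        · rintro ⟨-, i', hi', h1⟩
          refine ⟨⟨i', hi'⟩, mem_univ _, ?_⟩
          have h2 := (hidx l hlm i' hi').1
          rw [hget i' hi' h2] at h1
          have h3 := Option.some.inj h1
          apply Subtype.ext
          rw [← h3, hρ]
          subst hM
          rfl
        · rintro ⟨⟨i', hi'⟩, -, h1⟩
          refine ⟨mem_univ _, i', hi', ?_⟩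
          have h2 := (hidx l hlm i' hi').1
          rw [hget i' hi' h2, ← h1, hρ]
          subst hM
          rfl
      rw [hloc]
    -- a complete copy
    unfold zcnt at hz
    rw [Finset.card_pos] at hz
    obtain ⟨φ, hφ⟩ := hz
    rw [mem_filter] at hφ
    obtain ⟨-, hφB, hφP⟩ := hφ
    have hinj := inj_of_class hB hφB
    have hsurj : (range E.card).image e = E := by
      apply Finset.eq_of_subset_of_card_le
      · intro f hf
        rw [mem_image] at hf
        obtain ⟨j, hj, rfl⟩ := hf
        exact hpat.mem j (mem_range.mp hj)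
      · rw [Finset.card_image_of_injOn, card_range]
        intro j hj j' hj' hjj
        exact hpat.inj j (mem_range.mp hj) j' (mem_range.mp hj') hjj
    refine ⟨⟨φ, hinj⟩, fun f hf => ?_⟩
    rw [← hsurj, mem_image] at hf
    obtain ⟨j, hj, rfl⟩ := hf
    rw [mem_range] at hj
    obtain ⟨U, hU, hU1, hU2⟩ := hφP j hj
    have hU' : U ∈ univ.image (ρ ⟨j, hj⟩) := by
      unfold hits at hU
      rw [dif_pos hj] at hU
      exact hU
    rw [mem_image] at hU'
    obtain ⟨⟨i, hi⟩, -, hUi⟩ := hU'
    refine ⟨(U.1, FF s B e R W (hits ρ) j U), ?_, ?_⟩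
    · have h1 := hentry j hj i hi
      rw [hUi] at h1
      exact List.mem_of_getElem? h1
    · show U.1 ∪ FF s B e R W (hits ρ) j U = (e j).map ⟨φ, hinj⟩
      have hU2' : FF s B e R W (hits ρ) j U = (e j \ R j).image φ := hU2
      rw [hU1, hU2', ← Finset.image_union, Finset.union_sdiff_of_subset (hpat.sub j hj),
        Finset.map_eq_image]
      rfl

end Pool.Agent.Lib.MP_426b05_co.H72
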