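import Pool.Agent.Lib.MP_426b05_co.H72.S6

/-!
# SUFF: the strategy succeeds for all `t ≫ n ^ (r - θ)`
-/

set_option autoImplicit false

namespace Pool.Agent.Lib.MP_426b05_co.H72

open Finset Filter Pool.Agent.Lib.MP_426b05_co

/-- a legal strategy exists -/
lemma exists_legal (r s n : ℕ) (hrs : r ≤ s) (hsn : s ≤ n) : ∃ σ : Strat n, Legal r s σ := by
  classical
  have h : ∀ U : Finset (Fin n), ∃ V : Finset (Fin n), U.card = r → V.card = s - r ∧ Disjoint U V := by
    intro U
    by_cases hU : U.card = r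
    · have h1 : s - r ≤ (univ \ U).card := by
        rw [Finset.card_sdiff_of_subset (Finset.subset_univ U), Finset.card_univ, Fintype.card_fin, hU]
        omega
      obtain ⟨V, hV1, hV2⟩ := Finset.exists_subset_card_eq h1
      refine ⟨V, fun _ => ⟨hV2, ?_⟩⟩
      rw [Finset.disjoint_left]
      intro x hx hxV
      exact (Finset.mem_sdiff.mp (hV1 hxV)).2 hx
    · exact ⟨∅, fun h => absurd h hU⟩
  choose f hf using h
  exact ⟨fun _ U => f U, fun _ U hU => hf U hU⟩

/-- the probability of success after `κ` rounds -/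
lemma rounds (h7 : S7Statement) (h8 : S8Statement) {V : Type} [Fintype V] [DecidableEq V]
    {r s n L : ℕ} {E : Finset (Finset V)} {B : V → Finset (Fin n)} {e R W : ℕ → Finset V}
    (hr : 1 ≤ r) (hrs : r < s) (hsn : s ≤ n) (hL : 1 ≤ L) (hE : ∀ f ∈ E, f.card = s)
    (hEne : E.Nonempty) (hdisj : ∀ a b, a ≠ b → Disjoint (B a) (B b)) (hpat : IsPattern r E e R)
    {c : ℝ} (hc0 : 0 ≤ c) (hN : 0 < Fintype.card (RS r n))
    (h5 : ∀ F : (Fin E.card → Fin L → RS r n) → ℕ → RS r n → Finset (Fin n),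
      (∀ ρ, Choice B (F ρ) (hits ρ) e R W E.card) →
      c * (Fintype.card (RS r n) : ℝ) ^ (L * E.card) ≤
        Nat.card {ρ : Fin E.card → Fin L → RS r n // 0 < zcnt B (F ρ) (hits ρ) e R E.card}) :
    ∃ σ : Strat n, Legal r s σ ∧ ∀ t κ : ℕ, κ * (E.card * L) ≤ t →
      c ≤ 1 ∧ 1 - (1 - c) ^ κ ≤ prob r E σ t := by
  classical
  obtain ⟨F, σ, hF, hσ, hwin⟩ := h7 V r s n L E B e R W hr hrs hsn hL hE hEne hdisj hpat
  refine ⟨σ, hσ, fun t κ ht => ?_⟩
  have hNR : (0 : ℝ) < Fintype.card (RS r n) := by exact_mod_cast hN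
  have hlt : ∀ (j : Fin E.card) (i : Fin L), j.1 * L + i.1 < E.card * L := by
    intro j i
    have := j.2; have := i.2; nlinarith
  -- the successful rounds
  obtain ⟨G, hG⟩ : ∃ G : Finset (Fin (E.card * L) → RS r n), G = univ.filter (fun g =>
      0 < zcnt B (F fun j i => g ⟨j.1 * L + i.1, hlt j i⟩)
        (hits fun (j : Fin E.card) (i : Fin L) => g ⟨j.1 * L + i.1, hlt j i⟩) e R E.card) := ⟨_, rfl⟩
  have hGc : Nat.card {ρ : Fin E.card → Fin L → RS r n // 0 < zcnt B (F ρ) (hits ρ) e R E.card} =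
      G.card := by
    have hfin : ∀ (j : Fin E.card) (i : Fin L),
        (⟨j.1 * L + i.1, hlt j i⟩ : Fin (E.card * L)) = finProdFinEquiv (j, i) := by
      intro j i
      apply Fin.ext
      rw [finProdFinEquiv_apply_val]
      simp only
      ring
    let e1 : (Fin (E.card * L) → RS r n) ≃ (Fin E.card → Fin L → RS r n) :=
      { toFun := fun g j i => g ⟨j.1 * L + i.1, hlt j i⟩
        invFun := fun ρ x => ρ (finProdFinEquiv.symm x).1 (finProdFinEquiv.symm x).2
        left_inv := by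
          intro g
          funext x
          simp only
          rw [hfin]
          exact congrArg g (finProdFinEquiv.apply_symm_apply x)
        right_inv := by
          intro ρ
          funext j i
          simp only
          rw [hfin, Equiv.symm_apply_apply] }
    have e2 := Nat.card_congr (Equiv.subtypeEquiv e1
      (p := fun g => 0 < zcnt B (F (e1 g)) (hits (e1 g)) e R E.card)
      (q := fun ρ => 0 < zcnt B (F ρ) (hits ρ) e R E.card) (fun g => Iff.rfl))
    rw [← e2, Nat.card_eq_fintype_card, Fintype.card_subtype, hG]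
    rfl
  have hGm : ∀ g : Fin (E.card * L) → RS r n, g ∈ G ↔
      0 < zcnt B (F fun j i => g ⟨j.1 * L + i.1, hlt j i⟩)
        (hits fun (j : Fin E.card) (i : Fin L) => g ⟨j.1 * L + i.1, hlt j i⟩) e R E.card := by
    intro g
    rw [hG, Finset.mem_filter]
    exact ⟨fun h => h.2, fun h => ⟨Finset.mem_univ _, h⟩⟩
  have hGbound : c * (Fintype.card (RS r n) : ℝ) ^ (E.card * L) ≤ G.card := by
    have h := h5 F hF
    rw [hGc, mul_comm L] at h
    exact h
  have hc1 : c ≤ 1 := by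
    have h1 : (G.card : ℝ) ≤ (Fintype.card (RS r n) : ℝ) ^ (E.card * L) := by
      have h2 := Finset.card_le_univ G
      rw [Fintype.card_fun, Fintype.card_fin] at h2
      exact_mod_cast h2
    have h2 : 0 < (Fintype.card (RS r n) : ℝ) ^ (E.card * L) := by positivity
    by_contra hcon
    rw [not_le] at hcon
    have := mul_lt_mul_of_pos_right hcon h2
    linarith
  have hbad := h8 (RS r n) (E.card * L) t κ ht c G hc0 hc1 hGbound
  -- total number
  have htot : (Nat.card (Fin t → RS r n) : ℝ) = (Fintype.card (RS r n) : ℝ) ^ t := by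
    rw [Nat.card_eq_fintype_card, Fintype.card_fun, Fintype.card_fin]
    push_cast
    rfl
  have hNt : 0 < (Fintype.card (RS r n) : ℝ) ^ t := by positivity
  refine ⟨hc1, ?_⟩
  unfold prob
  rw [htot, le_div_iff₀ hNt]
  have hsum : Nat.card {u : Fin t → RS r n // HasCopy E (run σ (List.ofFn fun i => (u i).1))} +
      Nat.card {u : Fin t → RS r n // ¬ HasCopy E (run σ (List.ofFn fun i => (u i).1))} =
      Nat.card (Fin t → RS r n) := by
    rw [Nat.card_eq_fintype_card, Nat.card_eq_fintype_card, Nat.card_eq_fintype_card,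
      Fintype.card_subtype_compl]
    have := Fintype.card_subtype_le
      (fun u : Fin t → RS r n => HasCopy E (run σ (List.ofFn fun i => (u i).1)))
    omega
  have hidx : ∀ (x : Fin κ) (i : Fin (E.card * L)), x.1 * (E.card * L) + i.1 < t := by
    intro x i
    have := x.2; have := i.2
    have h3 : (x.1 + 1) * (E.card * L) ≤ κ * (E.card * L) := Nat.mul_le_mul_right (E.card * L) x.2
    have h4 : (x.1 + 1) * (E.card * L) = x.1 * (E.card * L) + E.card * L := by ring
    omega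
  obtain ⟨P, hP⟩ : ∃ P : (Fin t → RS r n) → Prop, P = fun u =>
      ¬ HasCopy E (run σ (List.ofFn fun i => (u i).1)) := ⟨_, rfl⟩
  obtain ⟨Q, hQ⟩ : ∃ Q : (Fin t → RS r n) → Prop, Q = fun u =>
      ∀ x : Fin κ, (fun i : Fin (E.card * L) => u ⟨x.1 * (E.card * L) + i.1, hidx x i⟩) ∉ G :=
    ⟨_, rfl⟩
  have hPQ : ∀ u, P u → Q u := by
    intro u hu
    rw [hP] at hu
    rw [hQ]
    intro x hx
    have key := (hGm (fun i : Fin (E.card * L) => u ⟨x.1 * (E.card * L) + i.1, hidx x i⟩)).mp hx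
    beta_reduce at key
    exact hu (hwin t u x.1 ((Nat.mul_le_mul_right (E.card * L) x.2).trans ht) key)
  have hle' : Nat.card {u // P u} ≤ Nat.card {u // Q u} :=
    Nat.card_le_card_of_injective (Subtype.map id hPQ)
      (Subtype.map_injective hPQ Function.injective_id)
  have hbad' : (Nat.card {u // Q u} : ℝ) ≤ (1 - c) ^ κ * (Fintype.card (RS r n) : ℝ) ^ t := by
    rw [hQ]
    exact hbad
  have hsum' : Nat.card {u : Fin t → RS r n // HasCopy E (run σ (List.ofFn fun i => (u i).1))} +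
      Nat.card {u // P u} = Nat.card (Fin t → RS r n) := by
    rw [hP]
    exact hsum
  have h1 : ((Nat.card {u : Fin t → RS r n // HasCopy E (run σ (List.ofFn fun i => (u i).1))} : ℕ) : ℝ) +
      ((Nat.card {u // P u} : ℕ) : ℝ) = (Fintype.card (RS r n) : ℝ) ^ t := by
    rw [← htot]
    exact_mod_cast hsum'
  have h2 : ((Nat.card {u // P u} : ℕ) : ℝ) ≤
      (1 - c) ^ κ * (Fintype.card (RS r n) : ℝ) ^ t := le_trans (by exact_mod_cast hle') hbad'
  have h3 : (1 - (1 - c) ^ κ) * (Fintype.card (RS r n) : ℝ) ^ t =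
      (Fintype.card (RS r n) : ℝ) ^ t - (1 - c) ^ κ * (Fintype.card (RS r n) : ℝ) ^ t := by ring
  rw [h3]
  linarith

theorem suff (h5 : S5Statement) (h6 : S6Statement) (h7 : S7Statement) (h8 : S8Statement) :
    SuffStatement := by
  classical
  intro V _ _ r s θ E α e R W hr hrs hE hEne hθ hθr hplan
  obtain ⟨K, hK, hev⟩ := h6 V r θ E α e R W hr hθ hθr hplan
  obtain ⟨c, hc⟩ : ∃ c : ℝ, c = 1 / (4 ^ (E.card + 1) * 2 ^ Fintype.card V * K) := ⟨_, rfl⟩
  have hc0 : 0 < c := by rw [hc]; positivity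
  have hm : 0 < E.card := hEne.card_pos
  obtain ⟨Λ, hΛ⟩ : ∃ Λ : ℕ → ℕ, Λ = fun n : ℕ => ⌈(n : ℝ) ^ ((r : ℝ) - θ)⌉₊ := ⟨_, rfl⟩
  -- the strategies
  obtain ⟨n₀, hn₀⟩ := Filter.eventually_atTop.mp hev
  have hex : ∀ n : ℕ, ∃ σ : Strat n, (s ≤ n → Legal r s σ) ∧
      (s ≤ n → n₀ ≤ n → ∀ t κ : ℕ, κ * (E.card * Λ n) ≤ t →
        c ≤ 1 ∧ 1 - (1 - c) ^ κ ≤ prob r E σ t) := by
    intro n
    by_cases hs : s ≤ n
    · by_cases hn : n₀ ≤ n
      · obtain ⟨hN, hL1, hLN, B, hB, hdisj, hcond1, hcond2⟩ := hn₀ n hn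
        have hΛn : Λ n = ⌈(n : ℝ) ^ ((r : ℝ) - θ)⌉₊ := by rw [hΛ]
        rw [← hΛn] at hL1 hLN hcond1 hcond2
        obtain ⟨σ, hσ, hσ2⟩ := rounds h7 h8 (W := W) hr hrs hs hL1 hE hEne hdisj hplan.pat hc0.le hN
          (fun F hF => by
            have h := h5 V r n E.card (Λ n) K B e R W F hK hL1 hB hdisj
              (fun j hj => ⟨hplan.pat.sub j hj, hplan.sub j hj, hplan.pat.card j hj⟩) hF hN hLN
              hcond1 hcond2
            rw [hc]
            calc 1 / (4 ^ (E.card + 1) * 2 ^ Fintype.card V * K) *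
                (Fintype.card (RS r n) : ℝ) ^ (Λ n * E.card) =
                (Fintype.card (RS r n) : ℝ) ^ (Λ n * E.card) /
                  (4 ^ (E.card + 1) * 2 ^ Fintype.card V * K) := by ring
              _ ≤ _ := h)
        exact ⟨σ, fun _ => hσ, fun _ _ => hσ2⟩
      · obtain ⟨σ, hσ⟩ := exists_legal r s n hrs.le hs
        exact ⟨σ, fun _ => hσ, fun _ h => absurd h hn⟩
    · exact ⟨fun _ _ => ∅, fun h => absurd h hs, fun h => absurd h hs⟩
  choose σ hσ1 hσ2 using hex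
  refine ⟨σ, hσ1, fun t ht => ?_⟩
  -- `c ≤ 1`
  have hc1 : c ≤ 1 := (hσ2 (max s n₀) (le_max_left _ _) (le_max_right _ _) 0 0 (by simp)).1
  obtain ⟨κ, hκ⟩ : ∃ κ : ℕ → ℕ, κ = fun n => t n / (E.card * Λ n) := ⟨_, rfl⟩
  have hmR : (0 : ℝ) < E.card := by exact_mod_cast hm
  have hκlim : Tendsto κ atTop atTop := by
    rw [← tendsto_natCast_atTop_iff (R := ℝ)]
    have h1 : Tendsto (fun n => ((t n : ℝ) / (n : ℝ) ^ ((r : ℝ) - θ)) * (1 / (2 * E.card)) - 1)
        atTop atTop :=
      tendsto_atTop_add_const_right _ _ (ht.atTop_mul_const (by positivity))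
    refine tendsto_atTop_mono' _ ?_ h1
    filter_upwards [eventually_ge_atTop 1] with n hn
    have hx : (1 : ℝ) ≤ n := by exact_mod_cast hn
    have hN1 : 1 ≤ (n : ℝ) ^ ((r : ℝ) - θ) := Real.one_le_rpow hx (by linarith)
    have hΛn : Λ n = ⌈(n : ℝ) ^ ((r : ℝ) - θ)⌉₊ := by rw [hΛ]
    have hΛ1 : (n : ℝ) ^ ((r : ℝ) - θ) ≤ Λ n := by rw [hΛn]; exact Nat.le_ceil _
    have hΛ2 : (Λ n : ℝ) ≤ 2 * (n : ℝ) ^ ((r : ℝ) - θ) := by
      have := (Nat.ceil_lt_add_one (show 0 ≤ (n : ℝ) ^ ((r : ℝ) - θ) by linarith)).le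
      rw [← hΛn] at this
      linarith
    have hΛ0 : (0 : ℝ) < Λ n := by linarith
    have h2 : (t n : ℝ) / ((E.card * Λ n : ℕ) : ℝ) < (κ n : ℝ) + 1 := by
      have := Nat.lt_floor_add_one ((t n : ℝ) / ((E.card * Λ n : ℕ) : ℝ))
      rw [Nat.floor_div_eq_div] at this
      rw [hκ]
      exact this
    have h3 : ((t n : ℝ) / (n : ℝ) ^ ((r : ℝ) - θ)) * (1 / (2 * E.card)) ≤
        (t n : ℝ) / ((E.card * Λ n : ℕ) : ℝ) := by
      rw [div_mul_div_comm, mul_one]
      apply div_le_div_of_nonneg_left (Nat.cast_nonneg _)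
      · push_cast
        positivity
      · push_cast
        nlinarith
    linarith
  have hlow : Tendsto (fun n => 1 - (1 - c) ^ κ n) atTop (nhds 1) := by
    have h1 : Tendsto (fun k : ℕ => (1 - c) ^ k) atTop (nhds 0) :=
      tendsto_pow_atTop_nhds_zero_of_lt_one (by linarith) (by linarith)
    have h2 := (h1.comp hκlim).const_sub 1
    simpa using h2
  refine tendsto_of_tendsto_of_tendsto_of_le_of_le' hlow tendsto_const_nhds ?_ ?_
  · filter_upwards [eventually_ge_atTop (max s n₀)] with n hn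
    refine (hσ2 n ((le_max_left _ _).trans hn) ((le_max_right _ _).trans hn) (t n) (κ n) ?_).2
    rw [hκ]
    exact Nat.div_mul_le_self _ _
  · refine Eventually.of_forall fun n => ?_
    unfold prob
    apply div_le_one_of_le₀ _ (Nat.cast_nonneg _)
    exact_mod_cast Nat.card_le_card_of_injective _ Subtype.val_injective

end Pool.Agent.Lib.MP_426b05_co.H72
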